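import Mathlib

namespace Pool.Agent.Results.MP_f3603a_co.EulerianDeletion

open Polynomial

/-- `D` is an orientation of the simple graph `G`: the arcs of `D` join exactly the adjacent
pairs of `G`, and no pair is joined in both directions. -/
def IsOrientation {V : Type*} (G : SimpleGraph V) (D : V → V → Prop) : Prop :=
  (∀ u v, G.Adj u v ↔ (D u v ∨ D v u)) ∧ ∀ u v, ¬ (D u v ∧ D v u)

/-- The number of `D`-descents of the bijection `σ : V → [n]`. -/
noncomputable def des {V : Type*} [Fintype V] (D : V → V → Prop)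
    (σ : V ≃ Fin (Fintype.card V)) : ℕ :=
  Set.ncard {p : V × V | D p.1 p.2 ∧ σ p.2 < σ p.1}

open Classical in
/-- The Eulerian polynomial `A_D(t)`. -/
noncomputable def eulerianPoly {V : Type*} [Fintype V] (D : V → V → Prop) : ℤ[X] :=
  ∑ σ : V ≃ Fin (Fintype.card V), (X : ℤ[X]) ^ des D σ

/-- `|A_D(-1)|`. -/
noncomputable def nu {V : Type*} [Fintype V] (D : V → V → Prop) : ℤ :=
  |(eulerianPoly D).eval (-1)|

open Classical in
lemma nu_eq {V : Type*} [Fintype V] (D : V → V → Prop) :
    nu D = |∑ σ : V ≃ Fin (Fintype.card V), (-1 : ℤ) ^ des D σ| := by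
  simp [nu, eulerianPoly, eval_finsetSum]

open Classical in
/-- sign of a map into a linear order -/
noncomputable def sg {V : Type*} [Fintype V] {α : Type*} [LinearOrder α] (D : V → V → Prop)
    (f : V → α) : ℤ :=
  ∏ p : V × V, if D p.1 p.2 ∧ f p.2 < f p.1 then -1 else 1

lemma sg_eq {V : Type*} [Fintype V] (D : V → V → Prop) (σ : V ≃ Fin (Fintype.card V)) :
    (-1 : ℤ) ^ des D σ = sg D σ := by
  classical
  unfold sg des
  rw [Finset.prod_ite, Finset.prod_const, Finset.prod_const_one, mul_one]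
  congr 1
  rw [Set.ncard_eq_toFinset_card']
  congr 1
  ext p
  simp

open Classical in
lemma nu_eq_sg {V : Type*} [Fintype V] (D : V → V → Prop) (n : ℕ) (h : Fintype.card V = n) :
    nu D = |∑ σ : V ≃ Fin n, sg D σ| := by
  subst h
  rw [nu_eq]
  simp_rw [sg_eq]

lemma nu_eq_sg' {V : Type*} [Fintype V] [DecidableEq V] (D : V → V → Prop) (n : ℕ)
    (h : Fintype.card V = n) : nu D = |∑ σ : V ≃ Fin n, sg D σ| := by
  rw [nu_eq_sg D n h]
  refine congrArg _ (Finset.sum_congr ?_ fun _ _ => rfl)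
  ext
  simp

/-- orientation independence up to a global sign -/
lemma sg_orient {V : Type*} [Fintype V] {α : Type*} [LinearOrder α] (G : SimpleGraph V)
    (D₁ D₂ : V → V → Prop) (h₁ : IsOrientation G D₁) (h₂ : IsOrientation G D₂) :
    ∃ c : ℤ, |c| = 1 ∧ ∀ f : V → α, Function.Injective f → sg D₁ f = c * sg D₂ f := by
  classical
  refine ⟨∏ p : V × V, if D₁ p.1 p.2 ∧ D₂ p.2 p.1 then -1 else 1, ?_, ?_⟩
  · rw [Finset.abs_prod]
    refine Finset.prod_eq_one fun p _ => ?_
    split_ifs <;> simp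
  · intro f hf
    have e1 : sg D₂ f = (∏ p : V × V, if D₁ p.1 p.2 ∧ D₂ p.1 p.2 ∧ f p.2 < f p.1 then (-1 : ℤ) else 1)
        * ∏ p : V × V, if D₁ p.1 p.2 ∧ D₂ p.2 p.1 ∧ f p.1 < f p.2 then (-1 : ℤ) else 1 := by
      have sw : (∏ p : V × V, if D₁ p.1 p.2 ∧ D₂ p.2 p.1 ∧ f p.1 < f p.2 then (-1 : ℤ) else 1)
          = ∏ p : V × V, if D₁ p.2 p.1 ∧ D₂ p.1 p.2 ∧ f p.2 < f p.1 then (-1 : ℤ) else 1 := by
        refine Fintype.prod_equiv (Equiv.prodComm V V) _ _ ?_
        rintro ⟨a, b⟩
        rfl
      rw [sw, ← Finset.prod_mul_distrib]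
      unfold sg
      refine Finset.prod_congr rfl ?_
      rintro ⟨a, b⟩ -
      dsimp only
      have k1 := h₁.1 a b
      have k2 := h₁.2 a b
      have k3 := h₂.1 a b
      have k4 := h₂.2 a b
      by_cases x1 : D₁ a b <;> by_cases x2 : D₂ a b <;> by_cases x3 : D₁ b a <;>
        by_cases x4 : D₂ b a <;> by_cases x5 : f b < f a <;> simp_all
    rw [e1]
    unfold sg
    rw [← Finset.prod_mul_distrib, ← Finset.prod_mul_distrib]
    refine Finset.prod_congr rfl ?_
    rintro ⟨a, b⟩ -
    dsimp only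
    have k1 := h₁.1 a b
    have k2 := h₁.2 a b
    have k3 := h₂.1 a b
    have k4 := h₂.2 a b
    by_cases hab : a = b
    · subst hab
      by_cases x1 : D₁ a a <;> by_cases x2 : D₂ a a <;> simp_all
    · have hne : f a ≠ f b := fun h => hab (hf h)
      rcases lt_or_gt_of_ne hne with h | h
      · have h' : ¬ f b < f a := not_lt.2 h.le
        by_cases x1 : D₁ a b <;> by_cases x2 : D₂ a b <;> by_cases x3 : D₁ b a <;>
          by_cases x4 : D₂ b a <;> simp_all
      · have h' : ¬ f a < f b := not_lt.2 h.le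
        by_cases x1 : D₁ a b <;> by_cases x2 : D₂ a b <;> by_cases x3 : D₁ b a <;>
          by_cases x4 : D₂ b a <;> simp_all

lemma nu_orient {V : Type*} [Fintype V] (G : SimpleGraph V)
    (D₁ D₂ : V → V → Prop) (h₁ : IsOrientation G D₁) (h₂ : IsOrientation G D₂) :
    nu D₁ = nu D₂ := by
  classical
  obtain ⟨c, hc, h⟩ := sg_orient (α := Fin (Fintype.card V)) G D₁ D₂ h₁ h₂
  rw [nu_eq_sg D₁ _ rfl, nu_eq_sg D₂ _ rfl]
  have : (∑ σ : V ≃ Fin (Fintype.card V), sg D₁ σ)
      = c * ∑ σ : V ≃ Fin (Fintype.card V), sg D₂ σ := by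
    rw [Finset.mul_sum]
    exact Finset.sum_congr rfl fun σ _ => h σ σ.injective
  rw [this, abs_mul, hc, one_mul]

/-- the product of the signs at a vertex -/
lemma prod_incident {V : Type*} [Fintype V] (G : SimpleGraph V) (D : V → V → Prop)
    (h : IsOrientation G D) (w : V) (he : Even (G.neighborSet w).ncard) :
    open Classical in
    (∏ p : V × V, if D p.1 p.2 ∧ (p.1 = w ∨ p.2 = w) then (-1 : ℤ) else 1) = 1 := by
  classical
  have hww : ¬ D w w := fun k => h.2 w w ⟨k, k⟩
  have e1 : (∏ p : V × V, if D p.1 p.2 ∧ (p.1 = w ∨ p.2 = w) then (-1 : ℤ) else 1)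
      = (∏ p : V × V, if D p.1 p.2 ∧ p.1 = w then (-1 : ℤ) else 1) *
        ∏ p : V × V, if D p.1 p.2 ∧ p.2 = w then (-1 : ℤ) else 1 := by
    rw [← Finset.prod_mul_distrib]
    refine Finset.prod_congr rfl ?_
    rintro ⟨a, b⟩ -
    dsimp only
    by_cases x1 : D a b <;> by_cases x2 : a = w <;> by_cases x3 : b = w <;> simp_all
  have e2 : (∏ p : V × V, if D p.1 p.2 ∧ p.1 = w then (-1 : ℤ) else 1)
      = ∏ u : V, if D w u then (-1 : ℤ) else 1 := by
    rw [Fintype.prod_prod_type]
    rw [Finset.prod_eq_single w]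
    · simp
    · intro b _ hb
      simp [hb]
    · simp
  have e3 : (∏ p : V × V, if D p.1 p.2 ∧ p.2 = w then (-1 : ℤ) else 1)
      = ∏ u : V, if D u w then (-1 : ℤ) else 1 := by
    rw [Fintype.prod_prod_type_right]
    rw [Finset.prod_eq_single w]
    · simp
    · intro b _ hb
      simp [hb]
    · simp
  rw [e1, e2, e3, ← Finset.prod_mul_distrib]
  have e4 : (∏ u : V, (if D w u then (-1 : ℤ) else 1) * (if D u w then (-1 : ℤ) else 1))
      = ∏ u : V, if G.Adj w u then (-1 : ℤ) else 1 := by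
    refine Finset.prod_congr rfl fun u _ => ?_
    have k1 := h.1 w u
    have k2 := h.2 w u
    by_cases x1 : D w u <;> by_cases x2 : D u w <;> simp_all
  rw [e4, Finset.prod_ite, Finset.prod_const, Finset.prod_const_one, mul_one]
  apply Even.neg_one_pow
  convert he using 1
  rw [Set.ncard_eq_toFinset_card']
  congr 1
  ext p
  simp

lemma rot_sg {V : Type*} [Fintype V] (G : SimpleGraph V) (D : V → V → Prop)
    (h : IsOrientation G D) (he : ∀ w, Even (G.neighborSet w).ncard) (m : ℕ)
    (σ : V ≃ Fin (m + 1)) : sg D (fun v => σ v + 1) = sg D σ := by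
  classical
  have h0 := prod_incident G D h (σ.symm (Fin.last m)) (he _)
  rw [← mul_one (sg D σ), ← h0]
  unfold sg
  rw [← Finset.prod_mul_distrib]
  refine Finset.prod_congr rfl ?_
  rintro ⟨a, b⟩ -
  dsimp only
  by_cases x1 : D a b
  swap
  · simp [x1]
  have hab : a ≠ b := by
    rintro rfl
    exact h.2 a a ⟨x1, x1⟩
  have hne : σ a ≠ σ b := fun k => hab (σ.injective k)
  have ea : a = σ.symm (Fin.last m) ↔ σ a = Fin.last m := by
    rw [Equiv.eq_symm_apply]
  have eb : b = σ.symm (Fin.last m) ↔ σ b = Fin.last m := by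
    rw [Equiv.eq_symm_apply]
  simp only [x1, true_and, ea, eb]
  generalize σ a = i at *
  generalize σ b = j at *
  clear h0
  have key : ∀ k : Fin (m + 1), ((k + 1 : Fin (m + 1)) : ℕ) = if k = Fin.last m then 0 else (k : ℕ) + 1 := by
    intro k
    split_ifs with hk
    · subst hk; simp
    · rw [Fin.val_add_one]; simp [hk]
  have hi := key i
  have hj := key j
  by_cases y1 : i = Fin.last m
  · by_cases y2 : j = Fin.last m
    · exact absurd (y1.trans y2.symm) hne
    · have a1 : ¬ (j + 1 < i + 1) := by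
        rw [Fin.lt_def, hi, hj]; simp [y1]
      have a2 : j < i := by
        rw [y1]; exact Fin.lt_last_iff_ne_last.2 y2
      rw [if_neg a1, if_pos a2, if_pos (Or.inl y1)]; norm_num
  · by_cases y2 : j = Fin.last m
    · have a1 : (j + 1 < i + 1) := by
        rw [Fin.lt_def, hi, hj]; simp [y1, y2]
      have a2 : ¬ (j < i) := by
        rw [y2]; exact not_lt.2 (Fin.le_last i)
      rw [if_pos a1, if_neg a2, if_pos (Or.inr y2)]; norm_num
    · have a1 : (j + 1 < i + 1) ↔ j < i := by
        rw [Fin.lt_def, hi, hj]; simp [y1, y2]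
      simp [a1, y1, y2]

/-- extend a labelling of `V \ {v}` by giving `v` the top label -/
def extLast {V : Type*} [DecidableEq V] (v : V) {m : ℕ} (τ : {w : V // w ≠ v} ≃ Fin m) :
    V ≃ Fin (m + 1) where
  toFun w := if h : w = v then Fin.last m else (τ ⟨w, h⟩).castSucc
  invFun i := if h : i = Fin.last m then v else (τ.symm (i.castPred h)).1
  left_inv w := by
    by_cases h : w = v
    · simp [h]
    · simp [h]
  right_inv i := by
    by_cases h : i = Fin.last m
    · simp [h]
    · have : (τ.symm (i.castPred h)).1 ≠ v := (τ.symm (i.castPred h)).2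
      simp [h, this]

lemma sum_last {V : Type*} [Fintype V] [DecidableEq V] (D : V → V → Prop)
    (hD : ∀ u, ¬ D u u) (v : V) (m : ℕ) :
    ∃ c : ℤ, |c| = 1 ∧
      (∑ σ : V ≃ Fin (m + 1), if σ v = Fin.last m then sg D σ else 0)
      = c * ∑ τ : {w : V // w ≠ v} ≃ Fin m, sg (fun a b : {w : V // w ≠ v} => D a.1 b.1) τ := by
  classical
  refine ⟨∏ u : V, if D v u then -1 else 1, ?_, ?_⟩
  · rw [Finset.abs_prod]
    refine Finset.prod_eq_one fun p _ => ?_
    split_ifs <;> simp
  rw [← Finset.sum_filter, Finset.mul_sum]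
  symm
  refine Finset.sum_bij (fun τ _ => extLast v τ) ?_ ?_ ?_ ?_
  · intro τ _
    simp [extLast]
  · intro τ₁ _ τ₂ _ h
    ext w
    have := congrArg (fun e : V ≃ Fin (m + 1) => (e w.1 : ℕ)) h
    simpa [extLast, w.2] using this
  · intro σ hσ
    simp only [Finset.mem_filter, Finset.mem_univ, true_and] at hσ
    have hne : ∀ w : V, w ≠ v → σ w ≠ Fin.last m := by
      intro w hw k
      exact hw (σ.injective (k.trans hσ.symm))
    have hne' : ∀ i : Fin m, σ.symm i.castSucc ≠ v := by
      intro i k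
      rw [Equiv.symm_apply_eq, hσ] at k
      exact absurd k (Fin.castSucc_lt_last i).ne
    refine ⟨⟨fun w => (σ w.1).castPred (hne w.1 w.2), fun i => ⟨σ.symm i.castSucc, hne' i⟩,
      ?_, ?_⟩, Finset.mem_univ _, ?_⟩
    · intro w; simp
    · intro i; simp
    · ext w
      by_cases h : w = v
      · simp [extLast, h, hσ]
      · simp [extLast, h]
  · intro τ _
    have e0 : sg D (extLast v τ) = ∏ a : V, ∏ b : V,
        if D a b ∧ (extLast v τ) b < (extLast v τ) a then (-1 : ℤ) else 1 := by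
      unfold sg
      rw [Fintype.prod_prod_type]
    have e0' : sg (fun a b : {w : V // w ≠ v} => D a.1 b.1) τ
        = ∏ a : {w : V // w ≠ v}, ∏ b : {w : V // w ≠ v},
        if D a.1 b.1 ∧ τ b < τ a then (-1 : ℤ) else 1 := by
      unfold sg
      rw [Fintype.prod_prod_type]
    rw [e0, e0', Fintype.prod_eq_mul_prod_subtype_ne (fun a : V => ∏ b : V,
        if D a b ∧ (extLast v τ) b < (extLast v τ) a then (-1 : ℤ) else 1) v]
    congr 1
    · refine Finset.prod_congr rfl fun u _ => ?_
      by_cases h : u = v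
      · subst h; simp [hD]
      · simp only [extLast, Equiv.coe_fn_mk, h, dite_false, dite_true]
        simp [Fin.castSucc_lt_last]
    · refine Finset.prod_congr rfl fun u _ => ?_
      rw [Fintype.prod_eq_mul_prod_subtype_ne (fun b : V =>
        if D u.1 b ∧ (extLast v τ) b < (extLast v τ) u.1 then (-1 : ℤ) else 1) v]
      have : ¬ ((extLast v τ) v < (extLast v τ) u.1) := by
        simp only [extLast, Equiv.coe_fn_mk, dite_true]
        exact not_lt.2 (Fin.le_last _)
      simp only [this, and_false, if_false, one_mul]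
      refine Finset.prod_congr rfl fun w _ => ?_
      simp [extLast, u.2, w.2]

lemma sum_rot {V : Type*} [Fintype V] [DecidableEq V] (G : SimpleGraph V) (D : V → V → Prop)
    (h : IsOrientation G D) (he : ∀ w, Even (G.neighborSet w).ncard) (v : V) (m : ℕ) :
    (∑ σ : V ≃ Fin (m + 1), sg D σ)
      = (m + 1) * ∑ σ : V ≃ Fin (m + 1), if σ v = Fin.last m then sg D σ else 0 := by
  classical
  set S : Fin (m + 1) → ℤ := fun j => ∑ σ : V ≃ Fin (m + 1), if σ v = j then sg D σ else 0 with hS
  have step : ∀ j, S (j + 1) = S j := by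
    intro j
    simp only [hS]
    symm
    refine Fintype.sum_equiv (Equiv.equivCongr (Equiv.refl V) (Equiv.addRight (1 : Fin (m + 1)))) _ _ ?_
    intro σ
    have e : (fun w => (Equiv.equivCongr (Equiv.refl V) (Equiv.addRight (1 : Fin (m + 1))) σ) w)
        = fun w => σ w + 1 := by
      funext w; rfl
    have e2 : sg D ((Equiv.equivCongr (Equiv.refl V) (Equiv.addRight (1 : Fin (m + 1))) σ))
        = sg D σ := by
      rw [← rot_sg G D h he m σ]
      rfl
    rw [e2]
    have e3 : (Equiv.equivCongr (Equiv.refl V) (Equiv.addRight (1 : Fin (m + 1))) σ) v = σ v + 1 := rfl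
    rw [e3]
    simp
  have all : ∀ j, S j = S 0 := by
    intro j
    induction j using Fin.induction with
    | zero => rfl
    | succ i ih =>
      rw [← Fin.coeSucc_eq_succ, step, ih]
  have tot : (∑ σ : V ≃ Fin (m + 1), sg D σ) = ∑ j, S j := by
    simp only [hS]
    rw [Finset.sum_comm]
    refine Finset.sum_congr rfl fun σ _ => ?_
    simp
  rw [tot, Finset.sum_congr rfl fun j _ => all j]
  simp only [Finset.sum_const, Finset.card_univ, Fintype.card_fin, nsmul_eq_mul]
  rw [← all (Fin.last m)]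
  push_cast
  ring

open Classical in
/-- **Vertex-deletion identity.** For every Eulerian simple graph `G` (all degrees even) with at
least one vertex, every orientation `D` of `G` and all orientations `D' v` of the graphs `G - v`,
`|A_D(-1)| = ∑ v, |A_{D' v}(-1)|`, that is `ν(G) = ∑ v, ν(G - v)`. -/
theorem result {V : Type*} [Fintype V] [Nonempty V] (G : SimpleGraph V)
    (hG : ∀ v, Even (G.neighborSet v).ncard)
    (D : V → V → Prop) (hD : IsOrientation G D)
    (D' : ∀ v : V, {w : V // w ≠ v} → {w : V // w ≠ v} → Prop)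
    (hD' : ∀ v : V, IsOrientation (G.induce {w : V | w ≠ v}) (D' v)) :
    nu D = ∑ v : V, nu (D' v) := by
  classical
  obtain ⟨m, hm⟩ : ∃ m, Fintype.card V = m + 1 := Nat.exists_eq_succ_of_ne_zero Fintype.card_ne_zero
  have key : ∀ v : V, nu D = (m + 1) * nu (D' v) := by
    intro v
    have hor : IsOrientation (G.induce {w : V | w ≠ v})
        (fun a b : {w : V // w ≠ v} => D a.1 b.1) := by
      refine ⟨fun a b => ?_, fun a b => hD.2 a.1 b.1⟩
      exact hD.1 a.1 b.1
    have hc : Fintype.card {w : V // w ≠ v} = m := by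
      rw [Fintype.card_subtype_compl, Fintype.card_subtype_eq, hm]; simp
    have e1 : nu (D' v) = |∑ τ : {w : V // w ≠ v} ≃ Fin m,
        sg (fun a b : {w : V // w ≠ v} => D a.1 b.1) τ| := by
      rw [nu_orient _ (D' v) _ (hD' v) hor]
      exact nu_eq_sg' _ m hc
    obtain ⟨c, hc1, hc2⟩ := sum_last D (fun u k => hD.2 u u ⟨k, k⟩) v m
    have e2 : nu D = |∑ σ : V ≃ Fin (m + 1), sg D σ| := by
      exact nu_eq_sg' D (m + 1) hm
    rw [e2, e1, sum_rot G D hD hG v m, hc2, abs_mul, abs_mul, hc1, one_mul]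
    congr 1
  have hcard : (Fintype.card V : ℤ) = m + 1 := by rw [hm]; push_cast; ring
  have hpos : (0 : ℤ) < m + 1 := by omega
  have : (m + 1 : ℤ) * nu D = (m + 1) * ∑ v : V, nu (D' v) := by
    rw [Finset.mul_sum]
    rw [← Finset.sum_congr rfl fun v _ => key v]
    rw [Finset.sum_const, Finset.card_univ, nsmul_eq_mul, hcard]
  exact mul_left_cancel₀ hpos.ne' this

end Pool.Agent.Results.MP_f3603a_co.EulerianDeletion
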